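import Pool.Agent.Helper63.Sey2.Goals

/-!
# Project SEY2 (MP_b6b2d3_co), packet SUP: supersaturation of independent sets
-/

namespace Pool.Agent.Helper87.Sey2

open Pool.Agent.Helper63.Sey2 Finset

/-- `f^m R^(m) ≤ R^m f^(m)` for falling factorials and `R ≤ f`. -/
theorem pow_mul_descFactorial_le {R f : ℕ} (h : R ≤ f) :
    ∀ m : ℕ, f ^ m * R.descFactorial m ≤ R ^ m * f.descFactorial m := by
  intro m
  induction m with
  | zero => simp
  | succ m ih =>
    rw [Nat.descFactorial_succ, Nat.descFactorial_succ, pow_succ, pow_succ]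
    have h1 : f * (R - m) ≤ R * (f - m) := by
      rw [Nat.mul_sub, Nat.mul_sub, Nat.mul_comm f R]
      exact Nat.sub_le_sub_left (Nat.mul_le_mul_right m h) _
    calc f ^ m * f * ((R - m) * R.descFactorial m)
        = (f * (R - m)) * (f ^ m * R.descFactorial m) := by ring
      _ ≤ (R * (f - m)) * (R ^ m * f.descFactorial m) := Nat.mul_le_mul h1 ih
      _ = R ^ m * R * ((f - m) * f.descFactorial m) := by ring

/-- The same for binomial coefficients. -/
theorem pow_mul_choose_le {R f : ℕ} (h : R ≤ f) (m : ℕ) :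
    f ^ m * R.choose m ≤ R ^ m * f.choose m := by
  have h1 := pow_mul_descFactorial_le h m
  rw [Nat.descFactorial_eq_factorial_mul_choose, Nat.descFactorial_eq_factorial_mul_choose] at h1
  have h2 : m.factorial * (f ^ m * R.choose m) ≤ m.factorial * (R ^ m * f.choose m) := by
    calc m.factorial * (f ^ m * R.choose m) = f ^ m * (m.factorial * R.choose m) := by ring
      _ ≤ R ^ m * (m.factorial * f.choose m) := h1
      _ = m.factorial * (R ^ m * f.choose m) := by ring
  exact Nat.le_of_mul_le_mul_left h2 (Nat.factorial_pos m)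

/-- The number of `R`-subsets of `F` which contain the `m`-set `I`. -/
theorem card_supersets_le {V : Type} [DecidableEq V] (F I : Finset V) (R m : ℕ) (hI : I ⊆ F)
    (hm : I.card = m) :
    ((F.powersetCard R).filter fun T => I ⊆ T).card ≤ (F.card - m).choose (R - m) := by
  have h1 : ((F \ I).powersetCard (R - m)).card = (F.card - m).choose (R - m) := by
    rw [card_powersetCard, card_sdiff_of_subset hI, hm]
  rw [← h1]
  refine card_le_card_of_injOn (fun T => T \ I) ?_ ?_
  · intro T hT
    have hT' := mem_filter.1 (mem_coe.1 hT)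
    have hT1 := mem_powersetCard.1 hT'.1
    refine mem_coe.2 (mem_powersetCard.2 ⟨sdiff_subset_sdiff hT1.1 (Subset.refl _), ?_⟩)
    show (T \ I).card = R - m
    rw [card_sdiff_of_subset hT'.2, hT1.2, hm]
  · intro T hT T' hT' hE
    have h2 : I ⊆ T := (mem_filter.1 (mem_coe.1 hT)).2
    have h3 : I ⊆ T' := (mem_filter.1 (mem_coe.1 hT')).2
    have hE' : T \ I = T' \ I := hE
    rw [← sdiff_union_of_subset h2, ← sdiff_union_of_subset h3, hE']

open Classical in
/-- Packet SUP. -/
theorem goalSUP : GoalRAM → GoalSUP := by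
  intro hRAM V _ H k m F hF
  set f := F.card with hf
  set R := (k + 1) ^ m with hR
  have hRm : (k + 1) ^ (m * m) = R ^ m := by rw [hR, pow_mul]
  rw [hRm]
  have hfin : Finite {I : Finset V // I ⊆ F ∧ ∀ u ∈ I, ∀ v ∈ I, ¬ H.Adj u v} := inferInstance
  have hpos : 1 ≤ Nat.card {I : Finset V // I ⊆ F ∧ ∀ u ∈ I, ∀ v ∈ I, ¬ H.Adj u v} := by
    have : Nonempty {I : Finset V // I ⊆ F ∧ ∀ u ∈ I, ∀ v ∈ I, ¬ H.Adj u v} :=
      ⟨⟨∅, empty_subset _, by simp⟩⟩
    exact Nat.card_pos
  rcases lt_or_ge f R with hlt | hge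
  · calc f ^ m ≤ R ^ m := Nat.pow_le_pow_left hlt.le m
      _ = R ^ m * 1 := (mul_one _).symm
      _ ≤ _ := Nat.mul_le_mul_left _ hpos
  have hk : 1 ≤ k := by
    by_contra hk0
    have hk0' : k = 0 := by omega
    have hR1 : R = 1 := by rw [hR, hk0']; simp
    have hfpos : 0 < F.card := by omega
    obtain ⟨v, hv⟩ := card_pos.1 hfpos
    have := hF {v} (by simpa using hv) (by
      intro u hu w hw huw
      rw [mem_singleton.1 hu, mem_singleton.1 hw] at huw
      exact absurd rfl huw)
    rw [card_singleton] at this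
    omega
  have hmR : m ≤ R := by
    have h1 : m < 2 ^ m := Nat.lt_two_pow_self
    have h2 : 2 ^ m ≤ (k + 1) ^ m := Nat.pow_le_pow_left (by omega) m
    omega
  -- the independent subsets with `m` elements
  let P : Finset (Finset V) := (F.powersetCard m).filter fun I => ∀ u ∈ I, ∀ v ∈ I, ¬ H.Adj u v
  have hP : P.card ≤ Nat.card {I : Finset V // I ⊆ F ∧ ∀ u ∈ I, ∀ v ∈ I, ¬ H.Adj u v} := by
    rw [Nat.card_eq_fintype_card, Fintype.card_subtype]
    apply card_le_card
    intro I hI
    have hI' := mem_filter.1 hI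
    exact mem_filter.2 ⟨mem_univ _, (mem_powersetCard.1 hI'.1).1, hI'.2⟩
  -- double counting
  have hdc : f.choose R ≤ P.card * (f - m).choose (R - m) := by
    have e1 : (F.powersetCard R).card = f.choose R := card_powersetCard _ _
    rw [← e1]
    calc (F.powersetCard R).card = ∑ T ∈ F.powersetCard R, 1 := by simp
      _ ≤ ∑ T ∈ F.powersetCard R, (P.filter fun I => I ⊆ T).card := by
        apply sum_le_sum
        intro T hT
        have hT' := mem_powersetCard.1 hT
        obtain ⟨I, hI1, hI2, hI3⟩ := hRAM V H k m T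
          (fun T' hT'' hc => hF T' (hT''.trans hT'.1) hc) (by rw [hT'.2])
        apply Nat.succ_le_of_lt
        apply card_pos.2
        exact ⟨I, mem_filter.2 ⟨mem_filter.2
          ⟨mem_powersetCard.2 ⟨hI1.trans hT'.1, hI3⟩, hI2⟩, hI1⟩⟩
      _ = ∑ T ∈ F.powersetCard R, ∑ I ∈ P, if I ⊆ T then 1 else 0 := by
        apply sum_congr rfl
        intro T _
        rw [card_filter]
      _ = ∑ I ∈ P, ∑ T ∈ F.powersetCard R, if I ⊆ T then 1 else 0 := sum_comm
      _ = ∑ I ∈ P, ((F.powersetCard R).filter fun T => I ⊆ T).card := by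
        apply sum_congr rfl
        intro I _
        rw [card_filter]
      _ ≤ ∑ I ∈ P, (f - m).choose (R - m) := by
        apply sum_le_sum
        intro I hI
        have hI' := mem_powersetCard.1 (mem_filter.1 hI).1
        exact card_supersets_le F I R m hI'.1 hI'.2
      _ = P.card * (f - m).choose (R - m) := by
        rw [sum_const, smul_eq_mul]
  have hid : f.choose R * R.choose m = f.choose m * (f - m).choose (R - m) :=
    Nat.choose_mul hmR
  have hc1 : 0 < (f - m).choose (R - m) := Nat.choose_pos (by omega)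
  have hc2 : 0 < R.choose m := Nat.choose_pos hmR
  have h1 : f.choose m ≤ P.card * R.choose m := by
    apply Nat.le_of_mul_le_mul_right _ hc1
    calc f.choose m * (f - m).choose (R - m) = f.choose R * R.choose m := hid.symm
      _ ≤ P.card * (f - m).choose (R - m) * R.choose m := Nat.mul_le_mul_right _ hdc
      _ = P.card * R.choose m * (f - m).choose (R - m) := by ring
  have h2 : f ^ m ≤ R ^ m * P.card := by
    apply Nat.le_of_mul_le_mul_right _ hc2
    calc f ^ m * R.choose m ≤ R ^ m * f.choose m := pow_mul_choose_le hge m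
      _ ≤ R ^ m * (P.card * R.choose m) := Nat.mul_le_mul_left _ h1
      _ = R ^ m * P.card * R.choose m := by ring
  exact h2.trans (Nat.mul_le_mul_left _ hP)

end Pool.Agent.Helper87.Sey2
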